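import Pool.Agent.H74.OLP.Targets2

/-!
# MP_781dd6_co, row END: the labels, if `om` has a potential
-/

set_option autoImplicit false
set_option linter.unusedSectionVars false
open scoped Classical
open Finset

namespace Pool.Agent.H40.OLP

open Pool.Agent.H74.OLP

lemma cor_sum {V E F : Type} [Fintype V] [Fintype E] [Fintype F] (M : CMap V E F) (n : ℕ)
    {θ : ℕ → V → F → R} {x D : ℕ → E → R} (h : ∀ j < n, M.Cor (θ j) (x j) (D j)) :
    M.Cor (fun v f => ∑ j ∈ Finset.range n, θ j v f) (fun e => ∑ j ∈ Finset.range n, x j e)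
      (fun e => ∑ j ∈ Finset.range n, D j e) := by
  induction n with
  | zero =>
    intro e
    simp
  | succ n ih =>
    have h1 := cor_add M (ih fun j hj => h j (by omega)) (h n (by omega))
    intro e
    have h2 := h1 e
    simp only [Finset.sum_range_succ]
    exact h2

theorem pf_END (h1 : T_COV) (h2 : T_KAP) : T_END := by
  intro V E F _ _ _ M hM hS n N c θ Φ hc hΦ hpot
  obtain ⟨g, hg⟩ := hpot
  obtain ⟨X, hX⟩ : ∃ X : Set F, X = {f | ∃ j < n, f ∈ Set.range (c j)} := ⟨_, rfl⟩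
  -- two adjacent faces of `X` are in the same cycle
  have huniq : ∀ j < n, ∀ k < n, ∀ e, M.l e ∈ Set.range (c j) → M.r e ∈ Set.range (c k) →
      j = k := by
    intro j hj k hk e hl hr
    by_contra hjk
    obtain ⟨x, hx⟩ := hl
    obtain ⟨y, hy⟩ := hr
    refine (hc.far j hj k hk hjk x y).2 ?_
    rw [hx, hy]
    exact T_adj_of_edge M hM e
  have huniq2 : ∀ j < n, ∀ k < n, ∀ f, f ∈ Set.range (c j) → f ∈ Set.range (c k) → j = k := by
    intro j hj k hk f hl hr
    by_contra hjk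
    obtain ⟨x, hx⟩ := hl
    obtain ⟨y, hy⟩ := hr
    exact (hc.far j hj k hk hjk x y).1 (hx.trans hy.symm)
  have hch : ∀ e, M.ch X e = ∑ j ∈ Finset.range n, M.ch (Set.range (c j)) e := by
    intro e
    by_cases he : M.l e ∈ X ∧ M.r e ∈ X
    · have he' := he
      rw [hX] at he
      obtain ⟨⟨j, hj, hl⟩, ⟨k, hk, hr⟩⟩ := he
      have hjk := huniq j hj k hk e hl hr
      subst hjk
      rw [Finset.sum_eq_single j]
      · unfold CMap.ch
        rw [if_pos he', if_pos ⟨hl, hr⟩]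
      · intro i hi hij
        unfold CMap.ch
        rw [if_neg]
        rintro ⟨h5, -⟩
        exact hij (huniq2 i (Finset.mem_range.1 hi) j hj _ h5 hl)
      · intro h5
        exact absurd (Finset.mem_range.2 hj) h5
    · unfold CMap.ch
      rw [if_neg he]
      symm
      refine Finset.sum_eq_zero fun j hj => ?_
      rw [if_neg]
      rintro ⟨hl, hr⟩
      apply he
      rw [hX]
      exact ⟨⟨j, Finset.mem_range.1 hj, hl⟩, ⟨j, Finset.mem_range.1 hj, hr⟩⟩
  have hcor := cor_add M (cor_sum M n hΦ.cor) (cor_pot M g)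
  have e1 : (fun e => (∑ j ∈ Finset.range n, M.ch (Set.range (c j)) e) + 0) = M.ch X := by
    funext e
    rw [add_zero, hch e]
  have e2 : (fun e => (∑ j ∈ Finset.range n, Φ j e) + (g (M.l e) + g (M.r e))) = M.D1 := by
    funext e
    rw [← hg e]
    unfold om
    have h5 := R2 (∑ j ∈ Finset.range n, Φ j e)
    linear_combination h5
  rw [e1, e2] at hcor
  -- the function `κ`
  have hκ : ∀ j : ℕ, ∃ κ : F → R, j < n → ∀ e, M.l e ∈ Set.range (c j) →
      M.r e ∈ Set.range (c j) → κ (M.l e) + κ (M.r e) = 1 + M.D1 e := by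
    intro j
    by_cases hj : j < n
    · obtain ⟨κ, hκ⟩ := h2 V E F M hM hS (N j) (c j) (hc.cyc j hj) (hc.odd j hj) (hc.one j hj)
      exact ⟨κ, fun _ => hκ⟩
    · exact ⟨fun _ => 0, fun h => absurd h hj⟩
  choose κ hκ using hκ
  have hk : ∀ f : F, ∃ r : R, ∀ j < n, f ∈ Set.range (c j) → r = κ j f := by
    intro f
    by_cases hf : ∃ j < n, f ∈ Set.range (c j)
    · obtain ⟨j, hj, hf⟩ := hf
      refine ⟨κ j f, fun k hk hf' => ?_⟩
      rw [huniq2 j hj k hk f hf hf']
    · exact ⟨0, fun j hj hf' => absurd ⟨j, hj, hf'⟩ hf⟩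
  choose κ' hκ' using hk
  refine h1 V E F M hM X _ κ' hcor ?_
  intro e hl hr
  rw [hX] at hl hr
  obtain ⟨j, hj, hl⟩ := hl
  obtain ⟨k, hk, hr⟩ := hr
  have hjk := huniq j hj k hk e hl hr
  subst hjk
  rw [hκ' _ j hj hl, hκ' _ j hj hr]
  exact hκ j hj e hl hr

end Pool.Agent.H40.OLP
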