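import Pool.Agent.H74.OLP.Targets2

/-!
# MP_781dd6_co, row FAM: existence of the corner functions
-/

set_option autoImplicit false
set_option linter.unusedSectionVars false
open scoped Classical
open Finset

namespace Pool.Agent.H40.OLP

open Pool.Agent.H74.OLP

theorem pf_FAM (h1 : T_PHI) (h2 : T_CZZ) (h3 : T_CSD) (h4 : T_SLF) : T_FAM := by
  intro V E F _ _ _ M hM hS n N c hc
  have hex : ∀ j : ℕ, ∃ (θ : V → F → R) (Φ : E → R), j < n →
      M.Cor θ (M.ch (Set.range (c j))) Φ ∧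
        ∀ v f, (∀ e, M.OnF e f → M.ch (Set.range (c j)) e = 0) → θ v f = 0 := by
    intro j
    by_cases hj : j < n
    · obtain ⟨θ, Φ, hθ⟩ := h1 V E F M hM (M.ch (Set.range (c j)))
        (h3 V E F M hM hS (N j) (c j) (hc.cyc j hj)).2.1
      exact ⟨θ, Φ, fun _ => hθ⟩
    · exact ⟨fun _ _ => 0, fun _ => 0, fun h => absurd h hj⟩
  choose θ Φ hθ using hex
  have hoff : ∀ j < n, ∀ e, M.l e ∉ Set.range (c j) → M.r e ∉ Set.range (c j) → Φ j e = 0 := by
    intro j hj e hl hr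
    obtain ⟨hcor, hz⟩ := hθ j hj
    obtain ⟨-, -, e3, -⟩ := hcor e
    have hf : ∀ f, f ∉ Set.range (c j) → ∀ v, θ j v f = 0 := by
      intro f hf v
      refine hz v f fun e' he' => ?_
      unfold CMap.ch
      rw [if_neg]
      rintro ⟨a, b⟩
      rcases he' with h | h
      · exact hf (h ▸ a)
      · exact hf (h ▸ b)
    rw [← e3, hf _ hl, hf _ hr, add_zero]
  refine ⟨θ, Φ, ⟨fun j hj => (hθ j hj).1, fun j hj => (h2 V E F M hM _ _ _ (hθ j hj).1).2,
    hoff, ?_⟩⟩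
  intro j hj l hl
  by_cases hjl : j = l
  · subst hjl
    rw [if_pos rfl]
    obtain ⟨d1, -, d3, -⟩ := h3 V E F M hM hS (N j) (c j) (hc.cyc j hj)
    rw [h4 V E F M hM (Set.range (c j)) (θ j) (Φ j) d3 (hθ j hj).1, ← d1, hc.one j hj]
  · rw [if_neg hjl]
    unfold CMap.dot
    refine Finset.sum_eq_zero fun e _ => ?_
    by_cases he : M.l e ∈ Set.range (c l) ∧ M.r e ∈ Set.range (c l)
    · obtain ⟨⟨x, hx⟩, ⟨y, hy⟩⟩ := he
      rw [hoff j hj e, zero_mul]
      · rintro ⟨x', hx'⟩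
        exact (hc.far j hj l hl hjl x' x).1 (hx'.trans hx.symm)
      · rintro ⟨x', hx'⟩
        exact (hc.far j hj l hl hjl x' y).1 (hx'.trans hy.symm)
    · unfold CMap.ch
      rw [if_neg he, mul_zero]

end Pool.Agent.H40.OLP
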